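import Mathlib

/-!
# The bidirectional `k`-neighbour graph on `ℤ^d`
-/

set_option autoImplicit false

open MeasureTheory

namespace Pool.Agent.Helper156.BnG

/-- The `2d` directions of `ℤ^d`: `(i, true)` is `+e_i` and `(i, false)` is `-e_i`. -/
abbrev Dir (d : ℕ) := Fin d × Bool

/-- The neighbour of `x` in the direction `u`. -/
def nbr {d : ℕ} (x : Fin d → ℤ) (u : Dir d) : Fin d → ℤ :=
  x + Pi.single u.1 (if u.2 then 1 else -1)

/-- A choice of exactly `k` of the `2d` directions. -/
def Choice (d k : ℕ) : Type := {S : Finset (Dir d) // S.card = k}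

/-- There are finitely many choices. -/
instance (d k : ℕ) : Fintype (Choice d k) :=
  inferInstanceAs (Fintype {S : Finset (Dir d) // S.card = k})

/-- All sets of choices are measurable. -/
instance (d k : ℕ) : MeasurableSpace (Choice d k) := ⊤

/-- A configuration: every vertex of `ℤ^d` chooses `k` directions. -/
abbrev Conf (d k : ℕ) := (Fin d → ℤ) → Choice d k

/-- The law of the configuration: the choices of the vertices are independent and uniform. -/
noncomputable def law (d k : ℕ) : Measure (Conf d k) :=
  Measure.infinitePi fun _ => ProbabilityTheory.uniformOn Set.univ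

/-- The edge between `x` and its neighbour in the direction `u` is open: each of the two vertices
chooses the direction of the other one. -/
def OpenEdge {d k : ℕ} (ω : Conf d k) (x : Fin d → ℤ) (u : Dir d) : Prop :=
  u ∈ (ω x).1 ∧ (u.1, !u.2) ∈ (ω (nbr x u)).1

/-- Some infinite self-avoiding path of open edges starts at the origin. -/
def Percolates {d k : ℕ} (ω : Conf d k) : Prop :=
  ∃ f : ℕ → Fin d → ℤ, f 0 = 0 ∧ Function.Injective f ∧
    ∀ n, ∃ u : Dir d, f (n + 1) = nbr (f n) u ∧ OpenEdge ω (f n) u

/-- The percolation probability `θ^B(k, d)`. -/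
noncomputable def theta (k d : ℕ) : ENNReal := law d k {ω | Percolates ω}

end Pool.Agent.Helper156.BnG
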