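import Pool.Agent.Helper156.BnG.Prob

/-!
# Percolation of the bidirectional `k`-neighbour graph for `k` of order `√d`
-/

set_option autoImplicit false

open Finset MeasureTheory

namespace Pool.Agent.Helper156.BnG

/-- The second moment inequality for a finite union of events. -/
theorem second_moment {Ω I : Type} [MeasurableSpace Ω] (μ : Measure Ω) [IsProbabilityMeasure μ]
    [Fintype I] (E : I → Set Ω) (hE : ∀ i, MeasurableSet (E i)) {C m : ℝ} (hC : 0 < C)
    (hm : 0 < m) (h1 : ∑ i, μ.real (E i) = m) (h2 : ∑ i, ∑ j, μ.real (E i ∩ E j) ≤ C * m ^ 2) :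
    1 / C ≤ μ.real (⋃ i, E i) := by
  classical
  set U : Set Ω := ⋃ i, E i with hU
  have hUm : MeasurableSet U := MeasurableSet.iUnion hE
  set lam : ℝ := C * m with hlam
  have hint : ∀ S : Set Ω, MeasurableSet S → Integrable (S.indicator (1 : Ω → ℝ)) μ := by
    intro S hS
    exact (integrable_const (1 : ℝ)).indicator hS
  have hI : ∀ S : Set Ω, MeasurableSet S → ∫ ω, S.indicator (1 : Ω → ℝ) ω ∂μ = μ.real S :=
    fun S hS => integral_indicator_one hS
  have hnn : 0 ≤ ∫ ω, (lam ^ 2 * U.indicator (1 : Ω → ℝ) ω -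
      2 * lam * ∑ i, (E i).indicator (1 : Ω → ℝ) ω +
      ∑ i, ∑ j, (E i ∩ E j).indicator (1 : Ω → ℝ) ω) ∂μ := by
    apply integral_nonneg
    intro ω
    have e1 : ∑ i, ∑ j, (E i ∩ E j).indicator (1 : Ω → ℝ) ω =
        (∑ i, (E i).indicator (1 : Ω → ℝ) ω) ^ 2 := by
      rw [sq, Finset.sum_mul_sum]
      apply Finset.sum_congr rfl
      intro i _
      apply Finset.sum_congr rfl
      intro j _
      rw [Set.inter_indicator_one]
      rfl
    show 0 ≤ lam ^ 2 * U.indicator (1 : Ω → ℝ) ω -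
      2 * lam * ∑ i, (E i).indicator (1 : Ω → ℝ) ω +
      ∑ i, ∑ j, (E i ∩ E j).indicator (1 : Ω → ℝ) ω
    rw [e1]
    by_cases hω : ω ∈ U
    · rw [Set.indicator_of_mem hω]
      simp only [Pi.one_apply, mul_one]
      nlinarith [sq_nonneg (lam - ∑ i, (E i).indicator (1 : Ω → ℝ) ω)]
    · have e2 : ∑ i, (E i).indicator (1 : Ω → ℝ) ω = 0 := by
        apply Finset.sum_eq_zero
        intro i _
        apply Set.indicator_of_notMem
        intro hi
        exact hω (Set.mem_iUnion.2 ⟨i, hi⟩)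
      rw [e2, Set.indicator_of_notMem hω]
      simp
  rw [integral_add, integral_sub, integral_const_mul, integral_const_mul, integral_finsetSum,
    integral_finsetSum, hI U hUm] at hnn
  · simp_rw [hI _ (hE _)] at hnn
    rw [h1] at hnn
    have h3 : ∑ i, ∫ ω, ∑ j, (E i ∩ E j).indicator (1 : Ω → ℝ) ω ∂μ =
        ∑ i, ∑ j, μ.real (E i ∩ E j) := by
      apply Finset.sum_congr rfl
      intro i _
      rw [integral_finsetSum]
      · apply Finset.sum_congr rfl
        intro j _
        exact hI _ ((hE i).inter (hE j))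
      · intro j _
        exact hint _ ((hE i).inter (hE j))
    rw [h3] at hnn
    have h4 : 0 ≤ (C * m) ^ 2 * μ.real U - C * m ^ 2 := by
      have : lam ^ 2 * μ.real U - 2 * lam * m + C * m ^ 2 = (C * m) ^ 2 * μ.real U - C * m ^ 2 := by
        rw [hlam]; ring
      linarith
    rw [div_le_iff₀ hC]
    have hCm : 0 < C * m ^ 2 := by positivity
    have h5 : C * m ^ 2 * 1 ≤ C * m ^ 2 * (μ.real U * C) := by nlinarith
    exact le_of_mul_le_mul_left h5 hCm
  · intro i _
    exact integrable_finsetSum _ fun j _ => hint _ ((hE i).inter (hE j))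
  · intro i _
    exact hint _ (hE i)
  · exact (hint U hUm).const_mul _
  · exact (integrable_finsetSum _ fun i _ => hint _ (hE i)).const_mul _
  · exact ((hint U hUm).const_mul _).sub
      ((integrable_finsetSum _ fun i _ => hint _ (hE i)).const_mul _)
  · exact integrable_finsetSum _ fun i _ => integrable_finsetSum _ fun j _ =>
      hint _ ((hE i).inter (hE j))

variable {d h : ℕ} (e : Fin 16 × Ch h ↪ Fin d)

theorem X_congr (s : ℕ) {c c' : ℕ → Ch h} {n : ℕ} (hc : ∀ t < n, c t = c' t) {t : ℕ}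
    (ht : t ≤ n) : X e s c t = X e s c' t := by
  unfold X
  apply Finset.sum_congr rfl
  intro u hu
  rw [hc u (lt_of_lt_of_le (Finset.mem_range.1 hu) ht)]

theorem req_congr {c c' : ℕ → Ch h} {n : ℕ} (hc : ∀ t < n, c t = c' t) {t : ℕ}
    (ht : t < n) : req e c t = req e c' t := by
  cases t with
  | zero => simp only [req]; rw [hc 0 ht]
  | succ t => simp only [req]; rw [hc (t + 1) ht, hc t (by omega)]

theorem Ev_congr (k : ℕ) {c c' : ℕ → Ch h} {n : ℕ} (hc : ∀ t < n, c t = c' t) :
    Ev e k n c = Ev e k n c' := by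
  ext ω
  constructor
  · intro H t ht
    have h1 : req e c t ⊆ (ω (X e 0 c t)).1 := H t ht
    rw [req_congr e hc ht, X_congr e 0 hc ht.le] at h1
    exact h1
  · intro H t ht
    have h1 : req e c' t ⊆ (ω (X e 0 c' t)).1 := H t ht
    rw [← req_congr e hc ht, ← X_congr e 0 hc ht.le] at h1
    exact h1

/-- some word is good up to level `n` -/
def Un (k n : ℕ) : Set (Conf d k) := {ω | ∃ c : ℕ → Ch h, ω ∈ Ev e k n c}

theorem Un_eq (k n : ℕ) (z : Ch h) : Un e k n = ⋃ c : Fin n → Ch h, Ev e k n (ext z c) := by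
  ext ω
  rw [Set.mem_iUnion]
  constructor
  · rintro ⟨c, hc⟩
    refine ⟨fun i => c i, ?_⟩
    rw [Ev_congr e k (c' := c)]
    · exact hc
    · intro t ht
      simp [ext, ht]
  · rintro ⟨c, hc⟩
    exact ⟨_, hc⟩

theorem Un_antitone (k : ℕ) : Antitone (Un (d := d) e k) := by
  intro m n hmn ω hω
  obtain ⟨c, hc⟩ := hω
  exact ⟨c, fun t ht => hc t (lt_of_lt_of_le ht hmn)⟩

theorem le_real_Un {k : ℕ} (h4 : 4 ≤ k) (hk : k ≤ 2 * d) (hh : 1 ≤ h) {C : ℝ} (hC : 0 < C)
    (hCa : 1 + ((sc d k * sc d k) * C / (2 * h)) * (9 / 4) ≤ C) (n : ℕ) :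
    1 / C ≤ (law d k).real (Un e k n) := by
  have := isProb d k hk
  have : IsProbabilityMeasure (law d k) := by unfold law; infer_instance
  have z : Ch h := (true, ⟨0, hh⟩)
  rw [Un_eq e k n z]
  have hpl : 0 < ∏ t ∈ range n, pl d k t := Finset.prod_pos fun t _ => pl_pos h4 hk t
  have hh' : (1 : ℝ) ≤ h := by exact_mod_cast hh
  have hcard : (Fintype.card (Fin n → Ch h) : ℝ) = (2 * h : ℝ) ^ n := by
    simp
  have hEv : ∀ c : Fin n → Ch h, (law d k).real (Ev e k n (ext z c)) =
      ∏ t ∈ range n, pl d k t := by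
    intro c
    have h1 := real_inter e hk n (ext z c) (ext z c)
    rw [Set.inter_self] at h1
    rw [h1]
    apply Finset.prod_congr rfl
    intro t _
    unfold rr
    rw [if_pos rfl, Finset.union_self, pr_req e h4 hk]
  apply second_moment (law d k) (fun c : Fin n → Ch h => Ev e k n (ext z c))
    (fun c => measurableSet_Ev e k n _) hC (m := (2 * h : ℝ) ^ n * ∏ t ∈ range n, pl d k t)
  · positivity
  · simp_rw [hEv]
    rw [Finset.sum_const, Finset.card_univ, nsmul_eq_mul, hcard]
  · have ha : 1 ≤ sc d k * sc d k := by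
      have := one_le_sc h4 hk
      nlinarith
    have hW := W_zero_le e hh ha hC.le hCa n 0
    calc ∑ c : Fin n → Ch h, ∑ c' : Fin n → Ch h,
          (law d k).real (Ev e k n (ext z c) ∩ Ev e k n (ext z c'))
        ≤ ∑ c : Fin n → Ch h, ∑ c' : Fin n → Ch h, (∏ t ∈ range n, pl d k t) ^ 2 *
          wt e (sc d k * sc d k) n 0 0 (ext z c) (ext z c') := by
          apply Finset.sum_le_sum
          intro c _
          apply Finset.sum_le_sum
          intro c' _
          rw [real_inter e hk]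
          exact prod_rr_le e h4 hk _ _ n
      _ = (∏ t ∈ range n, pl d k t) ^ 2 *
          ((2 * h : ℝ) ^ (2 * n) * W e (sc d k * sc d k) n 0 0) := by
          rw [← sum_wt e hh z]
          simp_rw [Finset.mul_sum]
      _ ≤ (∏ t ∈ range n, pl d k t) ^ 2 * ((2 * h : ℝ) ^ (2 * n) * C) := by
          apply mul_le_mul_of_nonneg_left _ (sq_nonneg _)
          exact mul_le_mul_of_nonneg_left hW (by positivity)
      _ = C * ((2 * h : ℝ) ^ n * ∏ t ∈ range n, pl d k t) ^ 2 := by
          have e1 : (2 * h : ℝ) ^ (2 * n) = ((2 * h : ℝ) ^ n) ^ 2 := by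
            rw [← pow_mul, mul_comm n 2]
          rw [e1]
          ring

/-- Infinitely long good words exist where arbitrarily long ones exist. -/
theorem exists_word (hh : 1 ≤ h) {k : ℕ} (ω : Conf d k) (hω : ∀ n, ω ∈ Un e k n) :
    ∃ c : ℕ → Ch h, ∀ n, ω ∈ Ev e k n c := by
  have hcl : ∀ n, IsClosed {c : ℕ → Ch h | ω ∈ Ev e k n c} := by
    intro n
    have hr : Continuous (fun (c : ℕ → Ch h) (i : Fin n) => c i) := by fun_prop
    have h1 : {c : ℕ → Ch h | ω ∈ Ev e k n c} = (fun (c : ℕ → Ch h) (i : Fin n) => c i) ⁻¹'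
        {c' : Fin n → Ch h | ω ∈ Ev e k n (ext (true, ⟨0, hh⟩) c')} := by
      ext c
      show ω ∈ Ev e k n c ↔ ω ∈ Ev e k n (ext (true, ⟨0, hh⟩) (fun i : Fin n => c i))
      rw [Ev_congr e k (c := c) (c' := ext (true, ⟨0, hh⟩) (fun i : Fin n => c i))]
      intro t ht
      simp [ext, ht]
    rw [h1]
    exact (isClosed_discrete _).preimage hr
  have := IsCompact.nonempty_iInter_of_sequence_nonempty_isCompact_isClosed
    (fun n => {c : ℕ → Ch h | ω ∈ Ev e k n c})
    (fun n c hc t ht => hc t (by omega)) (fun n => hω n) (hcl 0).isCompact hcl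
  obtain ⟨c, hc⟩ := this
  refine ⟨c, fun n => ?_⟩
  exact Set.mem_iInter.1 hc n

theorem percolates_of_word {k : ℕ} (ω : Conf d k) (c : ℕ → Ch h)
    (hc : ∀ n, ω ∈ Ev e k n c) : Percolates ω := by
  refine ⟨fun t => X e 0 c t, X_zero e 0 c, ?_, ?_⟩
  · intro t t' htt
    have h1 := lv_X e 0 c t
    have h2 := lv_X e 0 c t'
    simp only at htt
    rw [htt, h2] at h1
    exact_mod_cast h1.symm
  · intro t
    have hstep : X e 0 c (t + 1) = nbr (X e 0 c t) (e (blk t, c t), true) := by
      rw [X_succ, zero_add]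
      simp [nbr, step]
    refine ⟨(e (blk t, c t), true), hstep, ?_, ?_⟩
    · have h1 : req e c t ⊆ (ω (X e 0 c t)).1 := hc (t + 1) t (Nat.lt_succ_self t)
      apply h1
      cases t with
      | zero => simp [req]
      | succ t => simp [req]
    · have h1 : req e c (t + 1) ⊆ (ω (X e 0 c (t + 1))).1 :=
        hc (t + 2) (t + 1) (Nat.lt_succ_self _)
      rw [hstep] at h1
      apply h1
      simp [req]

include e in
theorem theta_pos_of {k : ℕ} (h4 : 4 ≤ k) (hk : k ≤ 2 * d) (hh : 1 ≤ h) {C : ℝ} (hC : 0 < C)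
    (hCa : 1 + ((sc d k * sc d k) * C / (2 * h)) * (9 / 4) ≤ C) : 0 < theta k d := by
  have := isProb d k hk
  have : IsProbabilityMeasure (law d k) := by unfold law; infer_instance
  have h1 : ∀ n, ENNReal.ofReal (1 / C) ≤ law d k (Un e k n) := by
    intro n
    have := le_real_Un e h4 hk hh hC hCa n
    rw [ENNReal.ofReal_le_iff_le_toReal (measure_ne_top _ _)]
    exact this
  have hmeas : ∀ n, MeasurableSet (Un (d := d) e k n) := by
    intro n
    rw [Un_eq e k n (true, ⟨0, hh⟩)]
    exact MeasurableSet.iUnion fun c => measurableSet_Ev e k n _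
  have h2 : ENNReal.ofReal (1 / C) ≤ law d k (⋂ n, Un e k n) := by
    rw [(Un_antitone e k).measure_iInter (fun n => (hmeas n).nullMeasurableSet)
      ⟨0, measure_ne_top _ _⟩]
    exact le_iInf h1
  have h3 : (⋂ n, Un (d := d) e k n) ⊆ {ω | Percolates ω} := by
    intro ω hω
    obtain ⟨c, hc⟩ := exists_word e hh ω (fun n => Set.mem_iInter.1 hω n)
    exact percolates_of_word e ω c hc
  unfold theta
  calc (0 : ENNReal) < ENNReal.ofReal (1 / C) := by
        rw [ENNReal.ofReal_pos]; positivity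
    _ ≤ _ := h2.trans (measure_mono h3)

/-- the coordinate of a letter in a block -/
def idx {d h : ℕ} (hd : 32 * h ≤ d) (p : Fin 16 × Ch h) : Fin d :=
  ⟨p.1.val * (2 * h) + ((if p.2.1 then h else 0) + p.2.2.val), by
    have h1 := p.1.2
    have h2 := p.2.2.2
    have h3 : p.1.val * (2 * h) ≤ 15 * (2 * h) := Nat.mul_le_mul_right _ (by omega)
    split_ifs <;> omega⟩

theorem idx_injective {d h : ℕ} (hd : 32 * h ≤ d) : Function.Injective (idx hd) := by
  rintro ⟨j, b, i⟩ ⟨j', b', i'⟩ heq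
  have h0 : j.val * (2 * h) + ((if b then h else 0) + i.val) =
      j'.val * (2 * h) + ((if b' then h else 0) + i'.val) := congrArg Fin.val heq
  have hi := i.2
  have hi' := i'.2
  have hr : (if b then h else 0) + i.val < 2 * h := by split_ifs <;> omega
  have hr' : (if b' then h else 0) + i'.val < 2 * h := by split_ifs <;> omega
  have hj : j.val = j'.val := by
    rcases lt_trichotomy j.val j'.val with hlt | heq' | hlt
    · exfalso
      have : (j.val + 1) * (2 * h) ≤ j'.val * (2 * h) := Nat.mul_le_mul_right _ hlt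
      rw [Nat.add_mul] at this
      omega
    · exact heq'
    · exfalso
      have : (j'.val + 1) * (2 * h) ≤ j.val * (2 * h) := Nat.mul_le_mul_right _ hlt
      rw [Nat.add_mul] at this
      omega
  rw [hj] at h0
  have h1 : (if b then h else 0) + i.val = (if b' then h else 0) + i'.val := by omega
  have hj' : j = j' := Fin.ext hj
  subst hj'
  cases b <;> cases b' <;> simp at h1
  · have : i = i' := Fin.ext h1
    rw [this]
  · omega
  · omega
  · have : i = i' := Fin.ext h1
    rw [this]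

/-- The percolation probability is positive as soon as `k ≥ 20 √d`. -/
theorem theta_pos (k d : ℕ) (hd : 1 ≤ d) (hk : k ≤ 2 * d) (hkd : 400 * d ≤ k ^ 2) :
    0 < theta k d := by
  have hd100 : 100 ≤ d := by
    have h1 : k ^ 2 ≤ (2 * d) ^ 2 := Nat.pow_le_pow_left hk 2
    nlinarith
  have hk200 : 200 ≤ k := by
    by_contra hcon
    push Not at hcon
    have : k ^ 2 < 200 ^ 2 := Nat.pow_lt_pow_left hcon (by norm_num)
    omega
  set h := d / 32 with hh
  have h32 : 32 * h ≤ d := Nat.mul_div_le d 32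
  have hh1 : 1 ≤ h := by omega
  have hh2 : d ≤ 32 * h + 31 := by omega
  have hdR : (100 : ℝ) ≤ d := by exact_mod_cast hd100
  have hkR : (200 : ℝ) ≤ k := by exact_mod_cast hk200
  have hkdR : (400 : ℝ) * d ≤ (k : ℝ) ^ 2 := by exact_mod_cast hkd
  have hhR : (d : ℝ) ≤ 32 * h + 31 := by exact_mod_cast hh2
  have hh1R : (1 : ℝ) ≤ h := by exact_mod_cast hh1
  have hth : 9 * (2 * (d : ℝ) - 1) ^ 2 < 8 * h * ((k : ℝ) - 1) ^ 2 := by
    have e1 : (396 : ℝ) * d ≤ ((k : ℝ) - 1) ^ 2 := by nlinarith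
    have e2 : (d : ℝ) - 31 ≤ 32 * h := by linarith
    have e3 : (69 / 100 : ℝ) * d ≤ d - 31 := by linarith
    have e4 : (8 : ℝ) * h ≥ 69 / 400 * d := by linarith
    have e5 : 9 * (2 * (d : ℝ) - 1) ^ 2 < 36 * (d : ℝ) ^ 2 := by nlinarith
    have e6 : (36 : ℝ) * (d : ℝ) ^ 2 ≤ (69 / 400 * d) * (396 * d) := by nlinarith
    have e7 : (69 / 400 * (d : ℝ)) * (396 * d) ≤ 8 * h * ((k : ℝ) - 1) ^ 2 :=
      mul_le_mul e4 e1 (by positivity) (by positivity)
    linarith
  set θ : ℝ := (sc d k * sc d k) * (9 / 4) / (2 * h) with hθ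
  have hk1 : (0 : ℝ) < (k : ℝ) - 1 := by linarith
  have hθ1 : θ < 1 := by
    rw [hθ, sc, div_lt_one (by positivity), div_mul_div_comm, div_mul_eq_mul_div,
      div_lt_iff₀ (by positivity)]
    nlinarith
  have hθ0 : 0 ≤ θ := by
    rw [hθ]
    have := mul_self_nonneg (sc d k)
    positivity
  apply theta_pos_of (⟨idx h32, idx_injective h32⟩ : Fin 16 × Ch h ↪ Fin d) (by omega) hk hh1
    (C := 1 / (1 - θ))
  · apply div_pos one_pos
    linarith
  · have hne : 1 - θ ≠ 0 := by linarith
    have e1 : (sc d k * sc d k) * (1 / (1 - θ)) / (2 * h) * (9 / 4) = θ * (1 / (1 - θ)) := by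
      rw [hθ]; ring
    rw [e1]
    apply le_of_eq
    field_simp
    ring

end Pool.Agent.Helper156.BnG
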