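import Pool.Agent.Helper156.BnG.Unif

/-!
# Comparison of the probabilities of pairs of required directions
-/

set_option autoImplicit false

open Finset

namespace Pool.Agent.Helper156.BnG

/-- the price of one shared direction -/
noncomputable def sc (d k : ℕ) : ℝ := (2 * d - 1) / (k - 1)

section
variable {d k : ℕ} (h4 : 4 ≤ k) (hk : k ≤ 2 * d)
include h4 hk

theorem real_bounds : (4 : ℝ) ≤ k ∧ (k : ℝ) ≤ 2 * d := by
  constructor
  · exact_mod_cast h4
  · exact_mod_cast hk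

theorem ratio_le (i : ℕ) (hi : i < 4) (j : ℕ) (hij : j ≤ i) :
    ((k : ℝ) - i) / (2 * d - i) ≤ (k - j) / (2 * d - j) := by
  obtain ⟨h1, h2⟩ := real_bounds h4 hk
  have hi' : (i : ℝ) < 4 := by exact_mod_cast hi
  have hij' : (j : ℝ) ≤ i := by exact_mod_cast hij
  rw [div_le_div_iff₀ (by linarith) (by linarith)]
  nlinarith

theorem one_le_sc : 1 ≤ sc d k := by
  obtain ⟨h1, h2⟩ := real_bounds h4 hk
  unfold sc
  rw [le_div_iff₀ (by linarith)]
  linarith

theorem pp_one : pp d k 1 = k / (2 * d) := by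
  have := pp_succ (j := 0) (by omega : 0 + 1 ≤ k) hk
  rw [pp_zero hk] at this
  simpa using this

theorem pp_two : pp d k 2 = pp d k 1 * ((k - 1) / (2 * d - 1)) := by
  have := pp_succ (j := 1) (by omega : 1 + 1 ≤ k) hk
  simpa using this

theorem pp_three : pp d k 3 = pp d k 2 * ((k - 2) / (2 * d - 2)) := by
  have := pp_succ (j := 2) (by omega : 2 + 1 ≤ k) hk
  simpa using this

theorem pp_four : pp d k 4 = pp d k 3 * ((k - 3) / (2 * d - 3)) := by
  have := pp_succ (j := 3) (by omega : 3 + 1 ≤ k) hk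
  simpa using this

theorem pp_one_pos : 0 < pp d k 1 := by
  obtain ⟨h1, h2⟩ := real_bounds h4 hk
  rw [pp_one h4 hk]
  apply div_pos <;> linarith

theorem pp_two_pos : 0 < pp d k 2 := by
  obtain ⟨h1, h2⟩ := real_bounds h4 hk
  rw [pp_two h4 hk]
  apply mul_pos (pp_one_pos h4 hk)
  apply div_pos <;> linarith

theorem two_mul_sc : pp d k 2 * sc d k = pp d k 1 := by
  obtain ⟨h1, h2⟩ := real_bounds h4 hk
  rw [pp_two h4 hk, sc]
  have e1 : (k : ℝ) - 1 ≠ 0 := by linarith
  have e2 : (2 * d : ℝ) - 1 ≠ 0 := by linarith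
  field_simp

theorem one_le_one_mul_sc : 1 ≤ pp d k 1 * sc d k := by
  obtain ⟨h1, h2⟩ := real_bounds h4 hk
  rw [pp_one h4 hk, sc, div_mul_div_comm, le_div_iff₀ (by apply mul_pos <;> linarith)]
  nlinarith

theorem ineq_one : pp d k 1 ≤ pp d k 1 * pp d k 1 * sc d k := by
  have h1 := one_le_one_mul_sc h4 hk
  have h2 := pp_one_pos h4 hk
  nlinarith

theorem ineq_two : pp d k 2 ≤ pp d k 1 * pp d k 1 := by
  rw [pp_two h4 hk]
  apply mul_le_mul_of_nonneg_left _ (pp_one_pos h4 hk).le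
  rw [pp_one h4 hk]
  have := ratio_le h4 hk 1 (by norm_num) 0 (by norm_num)
  simpa using this

theorem ineq_two' : pp d k 2 ≤ pp d k 2 * pp d k 2 * (sc d k * sc d k) := by
  have h1 := one_le_one_mul_sc h4 hk
  have h2 := pp_two_pos h4 hk
  have h3 := two_mul_sc h4 hk
  calc pp d k 2 ≤ pp d k 2 * (pp d k 1 * sc d k) := by nlinarith
    _ = pp d k 2 * pp d k 2 * (sc d k * sc d k) := by rw [← h3]; ring

theorem ineq_three : pp d k 3 ≤ pp d k 2 * pp d k 2 * sc d k := by
  have h3 := two_mul_sc h4 hk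
  rw [mul_assoc, h3, pp_three h4 hk]
  apply mul_le_mul_of_nonneg_left _ (pp_two_pos h4 hk).le
  rw [pp_one h4 hk]
  have := ratio_le h4 hk 2 (by norm_num) 0 (by norm_num)
  simpa using this

theorem ineq_four : pp d k 4 ≤ pp d k 2 * pp d k 2 := by
  obtain ⟨h1, h2⟩ := real_bounds h4 hk
  rw [pp_four h4 hk, pp_three h4 hk, mul_assoc]
  apply mul_le_mul_of_nonneg_left _ (pp_two_pos h4 hk).le
  rw [pp_two h4 hk, pp_one h4 hk]
  have h5 := ratio_le h4 hk 2 (by norm_num) 0 (by norm_num)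
  have h6 := ratio_le h4 hk 3 (by norm_num) 1 (by norm_num)
  simp only [Nat.cast_ofNat, Nat.cast_zero, sub_zero, Nat.cast_one] at h5 h6
  apply mul_le_mul h5 h6
  · apply div_nonneg <;> linarith
  · apply div_nonneg <;> linarith

end

end Pool.Agent.Helper156.BnG
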