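import Pool.Agent.Helper156.BnG.Walk

/-!
# Sums over pairs of words
-/

set_option autoImplicit false

open Finset

namespace Pool.Agent.Helper156.BnG

variable {d h : ℕ} (e : Fin 16 × Ch h ↪ Fin d)

/-- the infinite word that continues a finite one by the letter `z` -/
def ext (z : Ch h) {n : ℕ} (c : Fin n → Ch h) (t : ℕ) : Ch h :=
  if ht : t < n then c ⟨t, ht⟩ else z

/-- put a letter in front -/
def consW (i : Ch h) (c : ℕ → Ch h) : ℕ → Ch h
  | 0 => i
  | t + 1 => c t

theorem ext_cons (z : Ch h) {n : ℕ} (i : Ch h) (c : Fin n → Ch h) :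
    ext z (Fin.cons i c : Fin (n + 1) → Ch h) = consW i (ext z c) := by
  funext t
  cases t with
  | zero => simp [ext, consW]
  | succ t =>
    by_cases ht : t < n
    · have h1 : t + 1 < n + 1 := by omega
      simp only [ext, consW, dif_pos h1, dif_pos ht]
      exact Fin.cons_succ (α := fun _ => Ch h) i c ⟨t, ht⟩
    · have h1 : ¬ t + 1 < n + 1 := by omega
      simp only [ext, consW, dif_neg h1, dif_neg ht]

/-- the position after `t` steps of the walk that starts at `0` at time `s` -/
def X (s : ℕ) (c : ℕ → Ch h) (t : ℕ) : Pos d := ∑ u ∈ range t, step e (s + u) (c u)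

theorem X_zero (s : ℕ) (c : ℕ → Ch h) : X e s c 0 = 0 := by simp [X]

theorem X_cons (s : ℕ) (i : Ch h) (c : ℕ → Ch h) (t : ℕ) :
    X e s (consW i c) (t + 1) = step e s i + X e (s + 1) c t := by
  unfold X
  rw [Finset.sum_range_succ', add_comm]
  congr 1
  apply Finset.sum_congr rfl
  intro u _
  simp only [consW]
  rw [show s + (u + 1) = s + 1 + u by ring]

/-- the weight of a pair of words -/
noncomputable def wt (a : ℝ) (n s : ℕ) (D : Pos d) (c c' : ℕ → Ch h) : ℝ :=
  ∏ t ∈ range n, (if D + X e s c t - X e s c' t = 0 ∧ c t = c' t then a else 1)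

theorem wt_cons (a : ℝ) (n s : ℕ) (D : Pos d) (i j : Ch h) (c c' : ℕ → Ch h) :
    wt e a (n + 1) s D (consW i c) (consW j c') = (if D = 0 ∧ i = j then a else 1) *
      wt e a n (s + 1) (D + step e s i - step e s j) c c' := by
  unfold wt
  rw [Finset.prod_range_succ', mul_comm]
  congr 1
  · simp [X_zero, consW]
  · apply Finset.prod_congr rfl
    intro t _
    rw [X_cons, X_cons]
    have e1 : D + (step e s i + X e (s + 1) c t) - (step e s j + X e (s + 1) c' t) =
        D + step e s i - step e s j + X e (s + 1) c t - X e (s + 1) c' t := by abel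
    rw [e1]
    rfl

theorem sum_words (z : Ch h) (n : ℕ) (F : (ℕ → Ch h) → ℝ) :
    ∑ c : Fin (n + 1) → Ch h, F (ext z c) =
      ∑ i : Ch h, ∑ c : Fin n → Ch h, F (consW i (ext z c)) := by
  rw [← Fintype.sum_prod_type', ← (Fin.consEquiv (fun _ : Fin (n + 1) => Ch h)).sum_comp]
  apply Finset.sum_congr rfl
  rintro ⟨i, c⟩ _
  rw [← ext_cons]
  rfl

theorem sum_wt (hh : 1 ≤ h) (z : Ch h) (a : ℝ) (n : ℕ) : ∀ s D,
    ∑ c : Fin n → Ch h, ∑ c' : Fin n → Ch h, wt e a n s D (ext z c) (ext z c') =
      (2 * h : ℝ) ^ (2 * n) * W e a n s D := by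
  have hh' : (1 : ℝ) ≤ h := by exact_mod_cast hh
  have hpos : (0 : ℝ) < (2 * h : ℝ) ^ 2 := by positivity
  induction n with
  | zero => intro s D; simp [wt, W]
  | succ n ih =>
    intro s D
    rw [sum_words z n (fun c => ∑ c' : Fin (n + 1) → Ch h, wt e a (n + 1) s D c (ext z c'))]
    have h1 : ∀ (i : Ch h) (c : Fin n → Ch h),
        ∑ c' : Fin (n + 1) → Ch h, wt e a (n + 1) s D (consW i (ext z c)) (ext z c') =
        ∑ j : Ch h, ∑ c' : Fin n → Ch h, (if D = 0 ∧ i = j then a else 1) *
          wt e a n (s + 1) (D + step e s i - step e s j) (ext z c) (ext z c') := by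
      intro i c
      rw [sum_words z n (fun c' => wt e a (n + 1) s D (consW i (ext z c)) c')]
      simp_rw [wt_cons]
    simp_rw [h1]
    have h2 : ∀ i : Ch h, ∑ c : Fin n → Ch h, ∑ j : Ch h, ∑ c' : Fin n → Ch h,
        (if D = 0 ∧ i = j then a else 1) *
          wt e a n (s + 1) (D + step e s i - step e s j) (ext z c) (ext z c') =
        ∑ j : Ch h, (if D = 0 ∧ i = j then a else 1) *
          ((2 * h : ℝ) ^ (2 * n) * W e a n (s + 1) (D + step e s i - step e s j)) := by
      intro i
      rw [Finset.sum_comm]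
      apply Finset.sum_congr rfl
      intro j _
      rw [← ih, Finset.mul_sum]
      apply Finset.sum_congr rfl
      intro c _
      rw [Finset.mul_sum]
    simp_rw [h2]
    simp only [W]
    rw [show 2 * (n + 1) = 2 * n + 2 by ring, pow_add, mul_assoc, mul_div_cancel₀ _ hpos.ne',
      Finset.mul_sum]
    apply Finset.sum_congr rfl
    intro i _
    rw [Finset.mul_sum]
    apply Finset.sum_congr rfl
    intro j _
    ring

end Pool.Agent.Helper156.BnG
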