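import Mathlib

/-!
# Return probabilities of the lazy walk, and visit counts of sixteen cyclic blocks
-/

set_option autoImplicit false

open Finset

namespace Pool.Agent.Helper156.BnG

/-- probability that the walk with steps `1, 0, -1` of probabilities `1/4, 1/2, 1/4` leads from
`δ` to `0` in `m` steps -/
noncomputable def phi : ℕ → ℤ → ℝ
  | 0, δ => if δ = 0 then 1 else 0
  | m + 1, δ => (phi m (δ + 1) + 2 * phi m δ + phi m (δ - 1)) / 4

theorem phi_nonneg (m : ℕ) : ∀ δ, 0 ≤ phi m δ := by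
  induction m with
  | zero => intro δ; simp only [phi]; split_ifs <;> norm_num
  | succ m ih =>
    intro δ
    simp only [phi]
    have h1 := ih (δ + 1)
    have h2 := ih δ
    have h3 := ih (δ - 1)
    positivity

/-- binomial coefficients with integer lower index -/
def binZ (n : ℕ) (k : ℤ) : ℕ := if 0 ≤ k then n.choose k.toNat else 0

theorem binZ_succ (n : ℕ) (k : ℤ) : binZ (n + 1) k = binZ n k + binZ n (k - 1) := by
  unfold binZ
  rcases lt_trichotomy k 0 with hk | hk | hk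
  · rw [if_neg (by omega), if_neg (by omega), if_neg (by omega)]
  · subst hk
    simp
  · obtain ⟨j, rfl⟩ : ∃ j : ℕ, k = (j : ℤ) + 1 := ⟨(k - 1).toNat, by omega⟩
    rw [if_pos (by omega), if_pos (by omega), if_pos (by omega)]
    have h1 : ((j : ℤ) + 1).toNat = j + 1 := by omega
    have h2 : ((j : ℤ) + 1 - 1).toNat = j := by omega
    rw [h1, h2, Nat.choose_succ_succ]
    ring

theorem phi_eq (m : ℕ) : ∀ δ, phi m δ = (binZ (2 * m) (m + δ) : ℝ) / 4 ^ m := by
  induction m with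
  | zero =>
    intro δ
    simp only [phi, binZ, Nat.mul_zero, Nat.cast_zero, zero_add, pow_zero, div_one]
    rcases lt_trichotomy δ 0 with h | h | h
    · rw [if_neg (by omega), if_neg (by omega)]; simp
    · subst h; simp
    · rw [if_neg (by omega), if_pos (by omega)]
      have : 0 < δ.toNat := by omega
      rw [Nat.choose_eq_zero_of_lt this]
      simp
  | succ m ih =>
    intro δ
    simp only [phi, ih]
    have e : 2 * (m + 1) = (2 * m + 1) + 1 := by ring
    rw [e, binZ_succ, binZ_succ (2 * m), binZ_succ (2 * m)]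
    have e1 : (((m + 1 : ℕ) : ℤ) + δ) = m + (δ + 1) := by push_cast; ring
    have e2 : ((m : ℤ) + (δ + 1) - 1) = m + δ := by ring
    have e3 : ((m : ℤ) + δ - 1) = m + (δ - 1) := by ring
    rw [e1, e2, e3]
    push_cast
    rw [pow_succ]
    field_simp
    ring

theorem phi_zero_eq (m : ℕ) : phi m 0 = (m.centralBinom : ℝ) / 4 ^ m := by
  rw [phi_eq, Nat.centralBinom]
  simp [binZ]

theorem central_sq (m : ℕ) : (3 * m + 1) * m.centralBinom ^ 2 ≤ 16 ^ m := by
  induction m with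
  | zero => simp
  | succ m ih =>
    have h := Nat.succ_mul_centralBinom_succ m
    have h2 : (m + 1) ^ 2 * (m + 1).centralBinom ^ 2 = (2 * (2 * m + 1)) ^ 2 * m.centralBinom ^ 2 := by
      rw [← mul_pow, h, mul_pow]
    have hpos : 0 < (m + 1) ^ 2 := by positivity
    refine le_of_mul_le_mul_left ?_ hpos
    calc (m + 1) ^ 2 * ((3 * (m + 1) + 1) * (m + 1).centralBinom ^ 2)
        = (3 * (m + 1) + 1) * ((m + 1) ^ 2 * (m + 1).centralBinom ^ 2) := by ring
      _ = ((3 * m + 4) * (2 * (2 * m + 1)) ^ 2) * m.centralBinom ^ 2 := by rw [h2]; ring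
      _ ≤ (16 * (m + 1) ^ 2 * (3 * m + 1)) * m.centralBinom ^ 2 := by
          apply Nat.mul_le_mul_right
          nlinarith
      _ = (16 * (m + 1) ^ 2) * ((3 * m + 1) * m.centralBinom ^ 2) := by ring
      _ ≤ (16 * (m + 1) ^ 2) * 16 ^ m := Nat.mul_le_mul_left _ ih
      _ = (m + 1) ^ 2 * 16 ^ (m + 1) := by ring

theorem phi_zero_sq (m : ℕ) : (phi m 0) ^ 2 ≤ 1 / (3 * m + 1) := by
  rw [phi_zero_eq, div_pow, div_le_div_iff₀ (by positivity) (by positivity)]
  have h := central_sq m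
  have h' : ((3 * m + 1 : ℝ)) * (m.centralBinom : ℝ) ^ 2 ≤ 16 ^ m := by exact_mod_cast h
  have e : ((4 : ℝ) ^ m) ^ 2 = 16 ^ m := by rw [← pow_mul, mul_comm, pow_mul]; norm_num
  rw [e]
  linarith

theorem phi_zero_zero : phi 0 0 = 1 := by simp [phi]

theorem phi_one_zero : phi 1 0 = 1 / 2 := by
  rw [phi_zero_eq]
  simp [Nat.centralBinom]
  norm_num

/-- the block of time `s` -/
def blk (s : ℕ) : Fin 16 := ⟨s % 16, Nat.mod_lt _ (by norm_num)⟩

/-- number of visits of block `j` in the times `s, …, s + n - 1` -/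
def cnt (j : Fin 16) : ℕ → ℕ → ℕ
  | 0, _ => 0
  | n + 1, s => cnt j n (s + 1) + if blk s = j then 1 else 0

theorem cnt_add (j : Fin 16) (n m : ℕ) : ∀ s, cnt j (n + m) s = cnt j n s + cnt j m (s + n) := by
  induction n with
  | zero => intro s; simp [cnt]
  | succ n ih =>
    intro s
    have e : n + 1 + m = (n + m) + 1 := by ring
    rw [e]
    simp only [cnt]
    rw [ih, show s + 1 + n = s + (n + 1) by ring]
    ring

theorem blk_add (s : ℕ) : blk (s + 16) = blk s := by
  simp [blk]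

theorem cnt_shift (j : Fin 16) (n : ℕ) : ∀ s, cnt j n (s + 16) = cnt j n s := by
  induction n with
  | zero => intro s; rfl
  | succ n ih =>
    intro s
    simp only [cnt]
    rw [show s + 16 + 1 = (s + 1) + 16 by ring, ih, blk_add]

theorem cnt_mod (j : Fin 16) (n s : ℕ) : cnt j n s = cnt j n (s % 16) := by
  induction s using Nat.strong_induction_on with
  | _ s ih =>
    by_cases h : s < 16
    · rw [Nat.mod_eq_of_lt h]
    · have h1 : s = (s - 16) + 16 := by omega
      rw [h1, cnt_shift, ih (s - 16) (by omega)]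
      congr 1
      omega

theorem cnt_sixteen (j : Fin 16) (s : ℕ) : cnt j 16 s = 1 := by
  rw [cnt_mod]
  have h : s % 16 < 16 := Nat.mod_lt _ (by norm_num)
  generalize s % 16 = r at h
  revert j
  interval_cases r <;> decide

theorem cnt_mul (j : Fin 16) (q : ℕ) : ∀ s, cnt j (16 * q) s = q := by
  induction q with
  | zero => intro s; rfl
  | succ q ih =>
    intro s
    rw [Nat.mul_succ, cnt_add, ih, cnt_sixteen]

theorem le_cnt (j : Fin 16) (n s : ℕ) : n / 16 ≤ cnt j n s := by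
  have h : n = 16 * (n / 16) + n % 16 := (Nat.div_add_mod n 16).symm
  conv_rhs => rw [h]
  rw [cnt_add, cnt_mul]
  omega

theorem cnt_le_one (j : Fin 16) (n s : ℕ) (h : n ≤ 16) : cnt j n s ≤ 1 := by
  have h1 : cnt j 16 s = cnt j n s + cnt j (16 - n) (s + n) := by
    rw [← cnt_add]
    congr 1
    omega
  rw [cnt_sixteen] at h1
  omega

theorem sum_cnt (n : ℕ) : ∀ s, ∑ j, cnt j n s = n := by
  induction n with
  | zero => intro s; simp [cnt]
  | succ n ih =>
    intro s
    simp only [cnt]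
    rw [Finset.sum_add_distrib, ih]
    simp

/-- the bound for the return probability -/
noncomputable def T (n s : ℕ) : ℝ := ∏ j, phi (cnt j n s) 0

theorem T_nonneg (n s : ℕ) : 0 ≤ T n s := Finset.prod_nonneg fun _ _ => phi_nonneg _ _

theorem T_small (n s : ℕ) (h : n ≤ 16) : T n s = (1 / 2) ^ n := by
  have h1 : ∀ j, phi (cnt j n s) 0 = (1 / 2) ^ (cnt j n s) := by
    intro j
    have h2 := cnt_le_one j n s h
    interval_cases cnt j n s
    · simp [phi_zero_zero]
    · simp [phi_one_zero]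
  unfold T
  rw [Finset.prod_congr rfl fun j _ => h1 j, Finset.prod_pow_eq_pow_sum, sum_cnt]

theorem T_large (n s : ℕ) (h : 16 ≤ n) : T n s ≤ (1 / 4) * (1 / ((n + 1 : ℝ) * (n + 2))) := by
  set q : ℕ := n / 16 with hq
  have hq1 : 1 ≤ q := by omega
  have hnq : n + 1 ≤ 16 * (q + 1) := by omega
  have hsq : T n s ^ 2 ≤ ((1 : ℝ) / (3 * q + 1)) ^ 16 := by
    unfold T
    rw [← Finset.prod_pow]
    calc ∏ j, phi (cnt j n s) 0 ^ 2 ≤ ∏ _j : Fin 16, (1 : ℝ) / (3 * q + 1) := by
          apply Finset.prod_le_prod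
          · intro j _; positivity
          · intro j _
            refine (phi_zero_sq _).trans ?_
            apply one_div_le_one_div_of_le (by positivity)
            have := le_cnt j n s
            have h3 : (q : ℝ) ≤ (cnt j n s : ℝ) := by exact_mod_cast this
            linarith
      _ = _ := by simp
  have h8 : T n s ≤ ((1 : ℝ) / (3 * q + 1)) ^ 8 := by
    apply le_of_sq_le_sq _ (by positivity)
    calc T n s ^ 2 ≤ ((1 : ℝ) / (3 * q + 1)) ^ 16 := hsq
      _ = (((1 : ℝ) / (3 * q + 1)) ^ 8) ^ 2 := by ring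
  have hq1' : (1 : ℝ) ≤ q := by exact_mod_cast hq1
  have hn' : (n : ℝ) + 1 ≤ 16 * (q + 1) := by exact_mod_cast hnq
  have hn0 : (0 : ℝ) ≤ n := Nat.cast_nonneg n
  refine h8.trans ?_
  have h3 : (3 * q + 1 : ℝ) ≥ 2 * (q + 1) := by linarith
  have h4 : (3 * q + 1 : ℝ) ≥ 4 := by linarith
  have h5 : (3 * q + 1 : ℝ) ^ 8 ≥ 4 ^ 6 * (2 * (q + 1)) ^ 2 := by
    have e1 : (3 * q + 1 : ℝ) ^ 6 ≥ 4 ^ 6 := pow_le_pow_left₀ (by norm_num) h4 6
    have e2 : (3 * q + 1 : ℝ) ^ 2 ≥ (2 * (q + 1)) ^ 2 := pow_le_pow_left₀ (by positivity) h3 2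
    calc (4 : ℝ) ^ 6 * (2 * (q + 1)) ^ 2 ≤ (3 * q + 1 : ℝ) ^ 6 * (3 * q + 1 : ℝ) ^ 2 :=
          mul_le_mul e1 e2 (by positivity) (by positivity)
      _ = (3 * q + 1 : ℝ) ^ 8 := by ring
  have h6 : (4 : ℝ) * ((n + 1) * (n + 2)) ≤ (3 * q + 1) ^ 8 := by
    have e1 : ((n : ℝ) + 1) * (n + 2) ≤ (16 * (q + 1)) * (17 * (q + 1)) :=
      mul_le_mul hn' (by linarith) (by positivity) (by positivity)
    nlinarith
  have h7 : (1 / 4 : ℝ) * (1 / ((n + 1) * (n + 2))) = 1 / (4 * ((n + 1) * (n + 2))) := by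
    rw [one_div_mul_one_div]
  rw [h7, one_div_pow]
  exact one_div_le_one_div_of_le (by positivity) h6

theorem T_le (n s : ℕ) : T n s ≤ (1 / 2) ^ n + (1 / 4) * (1 / ((n + 1 : ℝ) * (n + 2))) := by
  by_cases h : n ≤ 16
  · rw [T_small n s h]
    have : (0 : ℝ) ≤ (1 / 4) * (1 / ((n + 1 : ℝ) * (n + 2))) := by positivity
    linarith
  · have := T_large n s (by omega)
    have h2 : (0 : ℝ) ≤ (1 / 2) ^ n := by positivity
    linarith

theorem sum_T_le (m s : ℕ) : ∑ l ∈ range m, T l s ≤ 9 / 4 := by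
  have h : ∑ l ∈ range m, T l s ≤ (2 - 2 * (1 / 2) ^ m) + (1 / 4) * (1 - 1 / (m + 1 : ℝ)) := by
    induction m with
    | zero => simp
    | succ m ih =>
      rw [Finset.sum_range_succ]
      have h1 := T_le m s
      have e : (1 / 4 : ℝ) * (1 - 1 / (((m + 1 : ℕ) : ℝ) + 1)) =
          (1 / 4) * (1 - 1 / (m + 1 : ℝ)) + (1 / 4) * (1 / ((m + 1 : ℝ) * (m + 2))) := by
        push_cast
        field_simp
        ring
      have e2 : (2 : ℝ) - 2 * (1 / 2) ^ (m + 1) = (2 - 2 * (1 / 2) ^ m) + (1 / 2) ^ m := by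
        rw [pow_succ]; ring
      rw [e, e2]
      linarith
  refine h.trans ?_
  have h1 : (0 : ℝ) ≤ 2 * (1 / 2) ^ m := by positivity
  have h2 : (0 : ℝ) ≤ 1 / (m + 1 : ℝ) := by positivity
  linarith

end Pool.Agent.Helper156.BnG
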