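import Pool.Agent.Helper156.BnG.Paths
import Pool.Agent.Helper156.BnG.Ineq

/-!
# The probability that two oriented paths are both open
-/

set_option autoImplicit false

open Finset MeasureTheory

namespace Pool.Agent.Helper156.BnG

variable {d h : ℕ} (e : Fin 16 × Ch h ↪ Fin d)

/-- the directions required at the `t`-th vertex of the path of the word `c` -/
def req (c : ℕ → Ch h) : ℕ → Finset (Dir d)
  | 0 => {(e (blk 0, c 0), true)}
  | t + 1 => {(e (blk (t + 1), c (t + 1)), true), (e (blk t, c t), false)}

/-- the sum of the coordinates -/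
def lv (x : Pos d) : ℤ := ∑ i, x i

theorem lv_step (s : ℕ) (c : Ch h) : lv (step e s c) = 1 := by
  simp [lv, step]

theorem lv_X (s : ℕ) (c : ℕ → Ch h) (t : ℕ) : lv (X e s c t) = t := by
  unfold lv X
  simp only [Finset.sum_apply]
  rw [Finset.sum_comm]
  have : ∀ u ∈ range t, ∑ i, step e (s + u) (c u) i = 1 := fun u _ => lv_step e (s + u) (c u)
  rw [Finset.sum_congr rfl this]
  simp

/-- the event that the required directions of the first `n` vertices are chosen -/
def Ev (k n : ℕ) (c : ℕ → Ch h) : Set (Conf d k) :=
  {ω | ∀ t < n, req e c t ⊆ (ω (X e 0 c t)).1}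

/-- the vertices of two paths -/
def verts (n : ℕ) (c c' : ℕ → Ch h) : Finset (Pos d) :=
  (range n).biUnion fun t => {X e 0 c t, X e 0 c' t}

/-- all requirements at a vertex -/
def reqs (c c' : ℕ → Ch h) (x : Pos d) : Finset (Dir d) :=
  (if X e 0 c (lv x).toNat = x then req e c (lv x).toNat else ∅) ∪
    (if X e 0 c' (lv x).toNat = x then req e c' (lv x).toNat else ∅)

theorem inter_eq (k n : ℕ) (c c' : ℕ → Ch h) : Ev e k n c ∩ Ev e k n c' =
    Set.pi (verts e n c c' : Set (Pos d)) (fun x => {S : Choice d k | reqs e c c' x ⊆ S.1}) := by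
  ext ω
  constructor
  · rintro ⟨h1, h2⟩ x hx
    have hx' : x ∈ verts e n c c' := hx
    rw [verts, Finset.mem_biUnion] at hx'
    obtain ⟨t, ht, hxt⟩ := hx'
    have ht' : t < n := Finset.mem_range.1 ht
    have hlv : (lv x).toNat = t := by
      rw [Finset.mem_insert, Finset.mem_singleton] at hxt
      rcases hxt with rfl | rfl <;> rw [lv_X] <;> simp
    show reqs e c c' x ⊆ (ω x).1
    unfold reqs
    rw [hlv]
    apply Finset.union_subset
    · split_ifs with h
      · rw [← h]; exact h1 t ht'
      · exact Finset.empty_subset _
    · split_ifs with h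
      · rw [← h]; exact h2 t ht'
      · exact Finset.empty_subset _
  · intro H
    constructor
    · intro t ht
      have hm : X e 0 c t ∈ (verts e n c c' : Set (Pos d)) := by
        show X e 0 c t ∈ verts e n c c'
        rw [verts, Finset.mem_biUnion]
        exact ⟨t, Finset.mem_range.2 ht, Finset.mem_insert_self _ _⟩
      have := H _ hm
      have h2 : reqs e c c' (X e 0 c t) ⊆ (ω (X e 0 c t)).1 := this
      refine Finset.Subset.trans ?_ h2
      unfold reqs
      rw [lv_X]
      simp
    · intro t ht
      have hm : X e 0 c' t ∈ (verts e n c c' : Set (Pos d)) := by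
        show X e 0 c' t ∈ verts e n c c'
        rw [verts, Finset.mem_biUnion]
        exact ⟨t, Finset.mem_range.2 ht, by simp⟩
      have := H _ hm
      have h2 : reqs e c c' (X e 0 c' t) ⊆ (ω (X e 0 c' t)).1 := this
      refine Finset.Subset.trans ?_ h2
      unfold reqs
      rw [lv_X]
      simp

/-- the factor of level `t` -/
noncomputable def rr (k : ℕ) (c c' : ℕ → Ch h) (t : ℕ) : ℝ :=
  if X e 0 c t = X e 0 c' t then pr k (req e c t ∪ req e c' t)
  else pr k (req e c t) * pr k (req e c' t)

theorem real_inter {k : ℕ} (hk : k ≤ 2 * d) (n : ℕ) (c c' : ℕ → Ch h) :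
    (law d k).real (Ev e k n c ∩ Ev e k n c') = ∏ t ∈ range n, rr e k c c' t := by
  have := isProb d k hk
  rw [inter_eq, Measure.real, law, Measure.infinitePi_pi]
  · rw [ENNReal.toReal_prod]
    have h1 : ∀ x : Pos d, ((ProbabilityTheory.uniformOn (Set.univ : Set (Choice d k)))
        {S : Choice d k | reqs e c c' x ⊆ S.1}).toReal = pr k (reqs e c c' x) := fun x => rfl
    simp_rw [h1]
    unfold verts
    rw [Finset.prod_biUnion]
    · apply Finset.prod_congr rfl
      intro t _
      unfold rr
      by_cases ht : X e 0 c t = X e 0 c' t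
      · rw [if_pos ht, ← ht, Finset.pair_eq_singleton, Finset.prod_singleton]
        unfold reqs
        rw [lv_X]
        simp [ht]
      · rw [if_neg ht, Finset.prod_pair ht]
        unfold reqs
        rw [lv_X, lv_X]
        simp [ht, Ne.symm ht, Ne.symm (Ne.symm ht), fun hh => ht (Eq.symm hh)]
    · intro t _ t' _ htt
      rw [Function.onFun, Finset.disjoint_left]
      intro x hx hx'
      apply htt
      rw [Finset.mem_insert, Finset.mem_singleton] at hx hx'
      have h1 : lv x = t := by rcases hx with rfl | rfl <;> rw [lv_X]
      have h2 : lv x = t' := by rcases hx' with rfl | rfl <;> rw [lv_X]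
      have : (t : ℤ) = t' := by rw [← h1, ← h2]
      exact_mod_cast this
  · intro x _
    exact MeasurableSpace.measurableSet_top

theorem measurableSet_Ev (k n : ℕ) (c : ℕ → Ch h) : MeasurableSet (Ev e k n c) := by
  have h1 : Ev e k n c = ⋂ t ∈ range n, (fun ω : Conf d k => ω (X e 0 c t)) ⁻¹'
      {S : Choice d k | req e c t ⊆ S.1} := by
    ext ω
    simp [Ev]
  rw [h1]
  apply Finset.measurableSet_biInter
  intro t _
  exact (measurable_pi_apply (X e 0 c t)) MeasurableSpace.measurableSet_top

/-- the price of a shared edge at level `t` -/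
noncomputable def sg (k : ℕ) (c c' : ℕ → Ch h) (t : ℕ) : ℝ :=
  if X e 0 c t - X e 0 c' t = 0 ∧ c t = c' t then sc d k else 1

/-- the price of a shared edge into level `t` -/
noncomputable def sg' (k : ℕ) (c c' : ℕ → Ch h) : ℕ → ℝ
  | 0 => 1
  | t + 1 => sg e k c c' t

/-- the probability of the requirements of level `t` -/
noncomputable def pl (d k : ℕ) : ℕ → ℝ
  | 0 => pp d k 1
  | _ + 1 => pp d k 2

theorem X_succ (s : ℕ) (c : ℕ → Ch h) (t : ℕ) :
    X e s c (t + 1) = X e s c t + step e (s + t) (c t) := by
  simp [X, Finset.sum_range_succ]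

theorem step_inj (s : ℕ) {c c' : Ch h} (hc : step e s c = step e s c') : c = c' := by
  by_contra hne
  have h1 := congrFun hc (e (blk s, c))
  simp only [step, Pi.single_eq_same] at h1
  rw [Pi.single_eq_of_ne] at h1
  · exact one_ne_zero h1
  · intro h2
    exact hne (Prod.mk.inj (e.injective h2)).2

theorem card_req (c : ℕ → Ch h) (t : ℕ) : (req e c t).card = if t = 0 then 1 else 2 := by
  cases t with
  | zero => simp [req]
  | succ t => simp [req]

section
variable {k : ℕ} (h4 : 4 ≤ k) (hk : k ≤ 2 * d)
include h4 hk

theorem pr_req (c : ℕ → Ch h) (t : ℕ) : pr k (req e c t) = pl d k t := by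
  rw [pr_eq _ (by rw [card_req]; split_ifs <;> omega), card_req]
  cases t <;> simp [pl]

theorem one_le_sg (c c' : ℕ → Ch h) (t : ℕ) : 1 ≤ sg e k c c' t := by
  unfold sg
  split_ifs
  · exact one_le_sc h4 hk
  · exact le_rfl

theorem pl_pos (t : ℕ) : 0 < pl d k t := by
  cases t
  · exact pp_one_pos h4 hk
  · exact pp_two_pos h4 hk

theorem rr_le (c c' : ℕ → Ch h) (t : ℕ) :
    rr e k c c' t ≤ pl d k t * pl d k t * (sg e k c c' t * sg' e k c c' t) := by
  have hs := one_le_sc h4 hk
  unfold rr
  by_cases hX : X e 0 c t = X e 0 c' t
  swap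
  · rw [if_neg hX, pr_req e h4 hk, pr_req e h4 hk]
    have h1 := one_le_sg e h4 hk c c' t
    have h2 : 1 ≤ sg' e k c c' t := by
      cases t with
      | zero => exact le_rfl
      | succ t => exact one_le_sg e h4 hk c c' t
    have h3 : 0 < pl d k t * pl d k t := mul_pos (pl_pos h4 hk t) (pl_pos h4 hk t)
    have h5 : 1 ≤ sg e k c c' t * sg' e k c c' t := by nlinarith
    nlinarith
  · rw [if_pos hX]
    cases t with
    | zero =>
      simp only [req, pl, sg', mul_one]
      by_cases hc : c 0 = c' 0
      · rw [hc, Finset.union_self, pr_eq _ (by simp; omega)]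
        have : sg e k c c' 0 = sc d k := by
          unfold sg
          rw [if_pos ⟨by rw [hX]; simp, hc⟩]
        rw [this]
        simpa using ineq_one h4 hk
      · have hcard : (({(e (blk 0, c 0), true)} : Finset (Dir d)) ∪
            {(e (blk 0, c' 0), true)}).card = 2 := by
          rw [Finset.card_union_of_disjoint]
          · simp
          · simp [hc]
        have : sg e k c c' 0 = 1 := by
          unfold sg
          rw [if_neg (fun hh => hc hh.2)]
        rw [pr_eq _ (by rw [hcard]; omega), hcard, this, mul_one]
        exact ineq_two h4 hk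
    | succ t =>
      simp only [req, pl, sg']
      have hprev : X e 0 c (t + 1) = X e 0 c' (t + 1) → c t = c' t →
          sg e k c c' t = sc d k := by
        intro h1 h2
        unfold sg
        rw [if_pos]
        refine ⟨?_, h2⟩
        rw [X_succ, X_succ, h2] at h1
        rw [add_right_cancel h1]
        simp
      by_cases hc : c (t + 1) = c' (t + 1)
      · have h1 : sg e k c c' (t + 1) = sc d k := by
          unfold sg
          rw [if_pos ⟨by rw [hX]; simp, hc⟩]
        by_cases hp : c t = c' t
        · rw [hc, hp, Finset.union_self, h1, hprev hX hp]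
          rw [pr_eq _ (by simp; omega)]
          simpa using ineq_two' h4 hk
        · have h2 : sg e k c c' t = 1 := by
            unfold sg
            rw [if_neg (fun hh => hp hh.2)]
          have hcard : (({(e (blk (t + 1), c (t + 1)), true), (e (blk t, c t), false)} :
              Finset (Dir d)) ∪ {(e (blk (t + 1), c' (t + 1)), true),
              (e (blk t, c' t), false)}).card = 3 := by
            have : (({(e (blk (t + 1), c (t + 1)), true), (e (blk t, c t), false)} :
              Finset (Dir d)) ∪ {(e (blk (t + 1), c' (t + 1)), true),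
              (e (blk t, c' t), false)}) = {(e (blk (t + 1), c' (t + 1)), true),
              (e (blk t, c t), false), (e (blk t, c' t), false)} := by
              rw [hc]
              ext x
              simp only [Finset.mem_union, Finset.mem_insert, Finset.mem_singleton]
              tauto
            rw [this, Finset.card_eq_three]
            refine ⟨_, _, _, ?_, ?_, ?_, rfl⟩
            · simp
            · simp
            · simp [hp]
          rw [pr_eq _ (by rw [hcard]; omega), hcard, h1, h2, mul_one]
          exact ineq_three h4 hk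
      · have h1 : sg e k c c' (t + 1) = 1 := by
          unfold sg
          rw [if_neg (fun hh => hc hh.2)]
        by_cases hp : c t = c' t
        · have hcard : (({(e (blk (t + 1), c (t + 1)), true), (e (blk t, c t), false)} :
              Finset (Dir d)) ∪ {(e (blk (t + 1), c' (t + 1)), true),
              (e (blk t, c' t), false)}).card = 3 := by
            have : (({(e (blk (t + 1), c (t + 1)), true), (e (blk t, c t), false)} :
              Finset (Dir d)) ∪ {(e (blk (t + 1), c' (t + 1)), true),
              (e (blk t, c' t), false)}) = {(e (blk (t + 1), c (t + 1)), true),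
              (e (blk (t + 1), c' (t + 1)), true), (e (blk t, c' t), false)} := by
              rw [hp]
              ext x
              simp only [Finset.mem_union, Finset.mem_insert, Finset.mem_singleton]
              tauto
            rw [this, Finset.card_eq_three]
            refine ⟨_, _, _, ?_, ?_, ?_, rfl⟩
            · simp [hc]
            · simp
            · simp
          rw [pr_eq _ (by rw [hcard]; omega), hcard, h1, hprev hX hp, one_mul]
          exact ineq_three h4 hk
        · have h2 : sg e k c c' t = 1 := by
            unfold sg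
            rw [if_neg (fun hh => hp hh.2)]
          have hcard : (({(e (blk (t + 1), c (t + 1)), true), (e (blk t, c t), false)} :
              Finset (Dir d)) ∪ {(e (blk (t + 1), c' (t + 1)), true),
              (e (blk t, c' t), false)}).card = 4 := by
            rw [Finset.card_union_of_disjoint]
            · rw [Finset.card_pair, Finset.card_pair] <;> simp
            · rw [Finset.disjoint_left]
              intro x hx hx'
              simp only [Finset.mem_insert, Finset.mem_singleton] at hx hx'
              rcases hx with rfl | rfl <;> rcases hx' with hx' | hx'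
              · exact hc (Prod.mk.inj (e.injective (Prod.mk.inj hx').1)).2
              · simp at hx'
              · simp at hx'
              · exact hp (Prod.mk.inj (e.injective (Prod.mk.inj hx').1)).2
          rw [pr_eq _ (by rw [hcard]; omega), hcard, h1, h2, mul_one, mul_one]
          exact ineq_four h4 hk

theorem prod_sg'_le (c c' : ℕ → Ch h) (n : ℕ) :
    ∏ t ∈ range n, sg' e k c c' t ≤ ∏ t ∈ range n, sg e k c c' t := by
  cases n with
  | zero => simp
  | succ n =>
    rw [Finset.prod_range_succ', Finset.prod_range_succ]
    simp only [sg']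
    apply mul_le_mul_of_nonneg_left (one_le_sg e h4 hk c c' n)
    exact Finset.prod_nonneg fun t _ => le_trans zero_le_one (one_le_sg e h4 hk c c' t)

theorem prod_rr_le (c c' : ℕ → Ch h) (n : ℕ) :
    ∏ t ∈ range n, rr e k c c' t ≤
      (∏ t ∈ range n, pl d k t) ^ 2 * wt e (sc d k * sc d k) n 0 0 c c' := by
  have hrr : ∀ t, 0 ≤ rr e k c c' t := by
    intro t
    unfold rr
    split_ifs
    · exact ENNReal.toReal_nonneg
    · exact mul_nonneg ENNReal.toReal_nonneg ENNReal.toReal_nonneg
  calc ∏ t ∈ range n, rr e k c c' t
      ≤ ∏ t ∈ range n, (pl d k t * pl d k t * (sg e k c c' t * sg' e k c c' t)) :=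
        Finset.prod_le_prod (fun t _ => hrr t) fun t _ => rr_le e h4 hk c c' t
    _ = (∏ t ∈ range n, pl d k t) ^ 2 *
        ((∏ t ∈ range n, sg e k c c' t) * ∏ t ∈ range n, sg' e k c c' t) := by
        rw [Finset.prod_mul_distrib, Finset.prod_mul_distrib, Finset.prod_mul_distrib, sq]
    _ ≤ (∏ t ∈ range n, pl d k t) ^ 2 *
        ((∏ t ∈ range n, sg e k c c' t) * ∏ t ∈ range n, sg e k c c' t) := by
        apply mul_le_mul_of_nonneg_left _ (sq_nonneg _)
        apply mul_le_mul_of_nonneg_left (prod_sg'_le e h4 hk c c' n)
        exact Finset.prod_nonneg fun t _ => le_trans zero_le_one (one_le_sg e h4 hk c c' t)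
    _ = (∏ t ∈ range n, pl d k t) ^ 2 * wt e (sc d k * sc d k) n 0 0 c c' := by
        congr 1
        rw [← Finset.prod_mul_distrib]
        unfold wt
        apply Finset.prod_congr rfl
        intro t _
        unfold sg
        rw [zero_add]
        split_ifs <;> simp

end

end Pool.Agent.Helper156.BnG
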