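import Pool.Agent.Helper156.BnG.Defs

/-!
# Probability that a uniform choice contains a given set
-/

set_option autoImplicit false

open Finset MeasureTheory

namespace Pool.Agent.Helper156.BnG

/-- number of `k`-sets containing `B` -/
theorem card_super {α : Type} [Fintype α] [DecidableEq α] (B : Finset α) (k : ℕ)
    (hB : B.card ≤ k) :
    ((powersetCard k (univ : Finset α)).filter (fun S => B ⊆ S)).card =
      (Fintype.card α - B.card).choose (k - B.card) := by
  rw [← Finset.card_compl, ← Finset.card_powersetCard]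
  apply Finset.card_bij' (fun S _ => S \ B) (fun T _ => T ∪ B)
  · intro S hS
    rw [Finset.mem_filter, Finset.mem_powersetCard] at hS
    rw [Finset.mem_powersetCard]
    refine ⟨fun x hx => ?_, ?_⟩
    · rw [Finset.mem_sdiff] at hx
      exact Finset.mem_compl.2 hx.2
    · rw [Finset.card_sdiff_of_subset hS.2, hS.1.2]
  · intro T hT
    rw [Finset.mem_powersetCard] at hT
    rw [Finset.mem_filter, Finset.mem_powersetCard]
    refine ⟨⟨Finset.subset_univ _, ?_⟩, Finset.subset_union_right⟩
    rw [Finset.card_union_of_disjoint, hT.2]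
    · omega
    · rw [Finset.disjoint_left]
      intro x hx
      exact Finset.mem_compl.1 (hT.1 hx)
  · intro S hS
    rw [Finset.mem_filter] at hS
    exact Finset.sdiff_union_of_subset hS.2
  · intro T hT
    rw [Finset.mem_powersetCard] at hT
    rw [Finset.union_sdiff_right]
    apply Finset.sdiff_eq_self_of_disjoint
    rw [Finset.disjoint_left]
    intro x hx
    exact Finset.mem_compl.1 (hT.1 hx)

instance (d k : ℕ) : MeasurableSingletonClass (Choice d k) := ⟨fun _ => trivial⟩

theorem card_choice (d k : ℕ) : Fintype.card (Choice d k) = (2 * d).choose k := by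
  have h : Fintype.card (Choice d k) = Fintype.card {S : Finset (Dir d) // S.card = k} := rfl
  rw [h, Fintype.card_finset_len]
  congr 1
  simp [mul_comm]

theorem isProb (d k : ℕ) (hk : k ≤ 2 * d) :
    IsProbabilityMeasure (ProbabilityTheory.uniformOn (Set.univ : Set (Choice d k))) := by
  apply ProbabilityTheory.isProbabilityMeasure_uniformOn Set.finite_univ
  have : 0 < Fintype.card (Choice d k) := by
    rw [card_choice]; exact Nat.choose_pos hk
  have := Fintype.card_pos_iff.1 this
  exact Set.univ_nonempty

/-- the probability that the choice of a vertex contains `B` -/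
noncomputable def pr (k : ℕ) {d : ℕ} (B : Finset (Dir d)) : ℝ :=
  (ProbabilityTheory.uniformOn (Set.univ : Set (Choice d k))).real {S | B ⊆ S.1}

/-- the probability that the choice of a vertex contains `j` given directions -/
noncomputable def pp (d k j : ℕ) : ℝ := ((2 * d - j).choose (k - j) : ℝ) / (2 * d).choose k

theorem pr_eq {d k : ℕ} (B : Finset (Dir d)) (hB : B.card ≤ k) : pr k B = pp d k B.card := by
  unfold pr pp
  rw [Measure.real, ProbabilityTheory.uniformOn_univ, card_choice, ENNReal.toReal_div]
  congr 1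
  rw [Measure.count_apply (MeasurableSpace.measurableSet_top :
    MeasurableSet ({S : Choice d k | B ⊆ S.1} : Set (Choice d k)))]
  have h1 : ({S : Choice d k | B ⊆ S.1} : Set (Choice d k)).encard =
      ((2 * d - B.card).choose (k - B.card) : ℕ) := by
    have h2 := card_super B k hB
    have h3 : Fintype.card (Dir d) = 2 * d := by simp [mul_comm]
    rw [h3] at h2
    rw [← h2]
    have h4 : (Subtype.val '' ({S : Choice d k | B ⊆ S.1} : Set (Choice d k))) =
        (((powersetCard k (univ : Finset (Dir d))).filter (fun S => B ⊆ S) :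
          Finset (Finset (Dir d))) : Set (Finset (Dir d))) := by
      ext S
      simp only [Set.mem_image, Set.mem_setOf_eq, Finset.coe_filter, Finset.mem_powersetCard]
      constructor
      · rintro ⟨T, hT, rfl⟩
        exact ⟨⟨Finset.subset_univ _, T.2⟩, hT⟩
      · rintro ⟨⟨_, h5⟩, h6⟩
        exact ⟨⟨S, h5⟩, h6, rfl⟩
    have h5 : (Subtype.val '' ({S : Choice d k | B ⊆ S.1} : Set (Choice d k))).encard =
        ({S : Choice d k | B ⊆ S.1} : Set (Choice d k)).encard :=
      Function.Injective.encard_image Subtype.val_injective _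
    rw [← h5, h4, Set.encard_coe_eq_coe_finsetCard]
  rw [h1]
  simp

theorem pp_succ {d k j : ℕ} (hj : j + 1 ≤ k) (hk : k ≤ 2 * d) :
    pp d k (j + 1) = pp d k j * ((k - j : ℝ) / (2 * d - j)) := by
  unfold pp
  obtain ⟨k', rfl⟩ : ∃ k', k = k' + (j + 1) := ⟨k - (j + 1), by omega⟩
  obtain ⟨n, hn⟩ : ∃ n, 2 * d = n + (j + 1) := ⟨2 * d - (j + 1), by omega⟩
  have e1 : 2 * d - (j + 1) = n := by omega
  have e2 : 2 * d - j = n + 1 := by omega
  have e3 : k' + (j + 1) - (j + 1) = k' := by omega
  have e4 : k' + (j + 1) - j = k' + 1 := by omega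
  rw [e1, e2, e3, e4]
  have h := Nat.add_one_mul_choose_eq n k'
  have h' : ((n : ℝ) + 1) * (n.choose k' : ℝ) = ((n + 1).choose (k' + 1) : ℝ) * (k' + 1) := by
    exact_mod_cast h
  have hd : (2 * d : ℝ) - j = n + 1 := by
    have : ((2 * d : ℕ) : ℝ) = ((n + (j + 1) : ℕ) : ℝ) := by rw [hn]
    push_cast at this
    linarith
  have hk' : ((k' + (j + 1) : ℕ) : ℝ) - j = k' + 1 := by push_cast; ring
  rw [hd, hk']
  have hpos : (0 : ℝ) < (2 * d).choose (k' + (j + 1)) := by
    exact_mod_cast Nat.choose_pos hk
  have hn1 : (0 : ℝ) < (n : ℝ) + 1 := by positivity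
  field_simp
  linarith

theorem pp_zero {d k : ℕ} (hk : k ≤ 2 * d) : pp d k 0 = 1 := by
  unfold pp
  have hpos : (0 : ℝ) < (2 * d).choose k := by
    exact_mod_cast Nat.choose_pos hk
  simp only [Nat.sub_zero]
  exact div_self hpos.ne'

end Pool.Agent.Helper156.BnG
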