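import Pool.Agent.Helper156.BnG.Phi

/-!
# The weighted number of shared edges of two independent block walks
-/

set_option autoImplicit false

open Finset

namespace Pool.Agent.Helper156.BnG

/-- letters -/
abbrev Ch (h : ℕ) := Bool × Fin h

/-- positions -/
abbrev Pos (d : ℕ) := Fin d → ℤ

variable {d h : ℕ} (e : Fin 16 × Ch h ↪ Fin d)

/-- the step taken at time `s` with the letter `c` -/
def step (s : ℕ) (c : Ch h) : Pos d := Pi.single (e (blk s, c)) 1

/-- the number of `true` letters in block `j` -/
def proj (j : Fin 16) (D : Pos d) : ℤ := ∑ i : Fin h, D (e (j, (true, i)))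

theorem proj_add (j : Fin 16) (D D' : Pos d) : proj e j (D + D') = proj e j D + proj e j D' := by
  simp [proj, Finset.sum_add_distrib]

theorem proj_sub (j : Fin 16) (D D' : Pos d) : proj e j (D - D') = proj e j D - proj e j D' := by
  simp [proj, Finset.sum_sub_distrib]

theorem proj_step (j : Fin 16) (s : ℕ) (c : Ch h) :
    proj e j (step e s c) = if blk s = j ∧ c.1 = true then 1 else 0 := by
  unfold proj step
  obtain ⟨b, i⟩ := c
  simp only [Pi.single_apply, EmbeddingLike.apply_eq_iff_eq, Prod.mk.injEq]
  by_cases hb : blk s = j ∧ b = true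
  · obtain ⟨h1, h2⟩ := hb
    subst h1 h2
    simp
  · rw [if_neg hb]
    apply Finset.sum_eq_zero
    intro k _
    rw [if_neg]
    rintro ⟨h1, h2, _⟩
    exact hb ⟨h1.symm, h2.symm⟩

theorem proj_zero (j : Fin 16) : proj e j (0 : Pos d) = 0 := by simp [proj]

/-- the probability to be at `0` after `n` steps from `D` at time `s` -/
noncomputable def Q : ℕ → ℕ → Pos d → ℝ
  | 0, _, D => if D = 0 then 1 else 0
  | n + 1, s, D => (∑ c : Ch h, ∑ c' : Ch h, Q n (s + 1) (D + step e s c - step e s c')) /
      (2 * h : ℝ) ^ 2

theorem Q_nonneg (n : ℕ) : ∀ s D, 0 ≤ Q e n s D := by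
  induction n with
  | zero => intro s D; simp only [Q]; split_ifs <;> norm_num
  | succ n ih =>
    intro s D
    simp only [Q]
    apply div_nonneg _ (by positivity)
    exact Finset.sum_nonneg fun _ _ => Finset.sum_nonneg fun _ _ => ih _ _

/-- the bound for the return probability -/
noncomputable def R (n s : ℕ) (D : Pos d) : ℝ := ∏ j, phi (cnt j n s) (proj e j D)

theorem Q_le (hh : 1 ≤ h) (n : ℕ) : ∀ s D, Q e n s D ≤ R e n s D := by
  induction n with
  | zero =>
    intro s D
    simp only [Q, R, cnt]
    split_ifs with h0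
    · subst h0
      simp [proj_zero, phi]
    · exact Finset.prod_nonneg fun _ _ => phi_nonneg _ _
  | succ n ih =>
    intro s D
    have hpos : (0 : ℝ) < (2 * h : ℝ) ^ 2 := by
      have : (1 : ℝ) ≤ h := by exact_mod_cast hh
      positivity
    simp only [Q]
    rw [div_le_iff₀ hpos]
    set j0 := blk s with hj0
    set P : ℝ := ∏ j ∈ univ.erase j0, phi (cnt j n (s + 1)) (proj e j D) with hP
    set m := cnt j0 n (s + 1) with hm
    set δ := proj e j0 D with hδ
    have key : ∀ c c' : Ch h, R e n (s + 1) (D + step e s c - step e s c') =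
        phi m (δ + (if c.1 = true then 1 else 0) - (if c'.1 = true then 1 else 0)) * P := by
      intro c c'
      unfold R
      rw [← Finset.mul_prod_erase univ _ (Finset.mem_univ j0)]
      congr 1
      · rw [proj_sub, proj_add, proj_step, proj_step]
        simp only [← hj0, true_and]
        rfl
      · apply Finset.prod_congr rfl
        intro j hj
        have hne : j0 ≠ j := (Finset.ne_of_mem_erase hj).symm
        rw [proj_sub, proj_add, proj_step, proj_step]
        rw [if_neg (fun hx => hne hx.1), if_neg (fun hx => hne hx.1)]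
        simp
    have hR : R e (n + 1) s D = phi (m + 1) δ * P := by
      unfold R
      rw [← Finset.mul_prod_erase univ _ (Finset.mem_univ j0)]
      congr 1
      · simp only [cnt, ← hj0, if_true]
        rfl
      · apply Finset.prod_congr rfl
        intro j hj
        have hne : j0 ≠ j := (Finset.ne_of_mem_erase hj).symm
        simp only [cnt, ← hj0, if_neg hne, add_zero]
    calc ∑ c : Ch h, ∑ c' : Ch h, Q e n (s + 1) (D + step e s c - step e s c')
        ≤ ∑ c : Ch h, ∑ c' : Ch h, R e n (s + 1) (D + step e s c - step e s c') :=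
          Finset.sum_le_sum fun _ _ => Finset.sum_le_sum fun _ _ => ih _ _
      _ = R e (n + 1) s D * (2 * h : ℝ) ^ 2 := by
          rw [hR]
          simp_rw [key]
          rw [Fintype.sum_prod_type]
          simp_rw [Fintype.sum_prod_type]
          simp only [Fintype.sum_bool, Finset.sum_const, Finset.card_univ, Fintype.card_fin,
            nsmul_eq_mul, phi, if_true, Bool.false_eq_true, if_false]
          have e1 : δ + 1 - 1 = δ := by ring
          have e2 : δ + 1 - 0 = δ + 1 := by ring
          have e3 : δ + 0 - 1 = δ - 1 := by ring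
          have e4 : δ + 0 - 0 = δ := by ring
          rw [e1, e2, e3, e4]
          ring

theorem sum_Q_le (hh : 1 ≤ h) (m s : ℕ) : ∑ l ∈ range m, Q e l s 0 ≤ 9 / 4 := by
  refine le_trans (Finset.sum_le_sum fun l _ => Q_le e hh l s 0) ?_
  refine le_trans (le_of_eq ?_) (sum_T_le m s)
  apply Finset.sum_congr rfl
  intro l _
  simp [R, T, proj_zero]

/-- the mean of `a` to the number of shared edges in `n` steps from the difference `D` at
time `s` -/
noncomputable def W (a : ℝ) : ℕ → ℕ → Pos d → ℝ
  | 0, _, _ => 1
  | n + 1, s, D => (∑ c : Ch h, ∑ c' : Ch h, (if D = 0 ∧ c = c' then a else 1) *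
      W a n (s + 1) (D + step e s c - step e s c')) / (2 * h : ℝ) ^ 2

theorem W_nonneg {a : ℝ} (ha : 0 ≤ a) (n : ℕ) : ∀ s D, 0 ≤ W e a n s D := by
  induction n with
  | zero => intro s D; simp [W]
  | succ n ih =>
    intro s D
    simp only [W]
    apply div_nonneg _ (by positivity)
    refine Finset.sum_nonneg fun _ _ => Finset.sum_nonneg fun _ _ => mul_nonneg ?_ (ih _ _)
    split_ifs
    · exact ha
    · norm_num

theorem W_le (hh : 1 ≤ h) {a C : ℝ} (ha : 1 ≤ a) (hC : 0 ≤ C)
    (hCa : 1 + (a * C / (2 * h)) * (9 / 4) ≤ C) (n : ℕ) :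
    ∀ s D, W e a n s D ≤ 1 + (a * C / (2 * h)) * ∑ l ∈ range n, Q e l s D := by
  have hh' : (1 : ℝ) ≤ h := by exact_mod_cast hh
  have hpos : (0 : ℝ) < (2 * h : ℝ) ^ 2 := by positivity
  have hK : 0 ≤ a * C / (2 * h) := by positivity
  set K := a * C / (2 * h) with hKdef
  induction n with
  | zero => intro s D; simp [W]
  | succ n ih =>
    intro s D
    have hC' : ∀ s, W e a n s 0 ≤ C := by
      intro s
      refine (ih s 0).trans (le_trans ?_ hCa)
      have := sum_Q_le e hh n s
      nlinarith
    set U : ℝ := ∑ c : Ch h, ∑ c' : Ch h,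
      (1 + K * ∑ l ∈ range n, Q e l (s + 1) (D + step e s c - step e s c')) with hU
    have hUeq : U = (2 * h : ℝ) ^ 2 * (1 + K * ∑ l ∈ range n, Q e (l + 1) s D) := by
      rw [hU]
      simp only [Finset.sum_add_distrib, ← Finset.mul_sum]
      have h1 : ∑ _c : Ch h, ∑ _c' : Ch h, (1 : ℝ) = (2 * h : ℝ) ^ 2 := by
        simp only [Finset.sum_const, Finset.card_univ, Fintype.card_prod, Fintype.card_bool,
          Fintype.card_fin, nsmul_eq_mul]
        push_cast
        ring
      have h2 : ∑ c : Ch h, ∑ c' : Ch h, ∑ l ∈ range n,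
          Q e l (s + 1) (D + step e s c - step e s c') =
          (2 * h : ℝ) ^ 2 * ∑ l ∈ range n, Q e (l + 1) s D := by
        rw [Finset.mul_sum]
        have h3 : ∀ c : Ch h, ∑ c' : Ch h, ∑ l ∈ range n,
            Q e l (s + 1) (D + step e s c - step e s c') =
            ∑ l ∈ range n, ∑ c' : Ch h, Q e l (s + 1) (D + step e s c - step e s c') := by
          intro c
          rw [Finset.sum_comm]
        rw [Finset.sum_congr rfl fun c _ => h3 c, Finset.sum_comm]
        apply Finset.sum_congr rfl
        intro l _
        simp only [Q]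
        rw [mul_div_cancel₀ _ hpos.ne']
      rw [h1, h2]
      ring
    have hUle : ∑ c : Ch h, ∑ c' : Ch h, W e a n (s + 1) (D + step e s c - step e s c') ≤ U :=
      Finset.sum_le_sum fun _ _ => Finset.sum_le_sum fun _ _ => ih _ _
    simp only [W]
    rw [div_le_iff₀ hpos, Finset.sum_range_succ']
    by_cases hD : D = 0
    · subst hD
      have hterm : ∀ c c' : Ch h, (if (0 : Pos d) = 0 ∧ c = c' then a else 1) *
          W e a n (s + 1) (0 + step e s c - step e s c') ≤
          (if c = c' then a * C else 0) + W e a n (s + 1) (0 + step e s c - step e s c') := by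
        intro c c'
        have hW := W_nonneg e (by linarith : (0 : ℝ) ≤ a) n (s + 1)
          (0 + step e s c - step e s c')
        by_cases hc : c = c'
        · subst hc
          simp only [true_and, if_true]
          have e0 : (0 : Pos d) + step e s c - step e s c = 0 := by simp
          rw [e0] at hW ⊢
          have := hC' (s + 1)
          nlinarith
        · simp [hc]
      calc ∑ c : Ch h, ∑ c' : Ch h, (if (0 : Pos d) = 0 ∧ c = c' then a else 1) *
            W e a n (s + 1) (0 + step e s c - step e s c')
          ≤ ∑ c : Ch h, ∑ c' : Ch h, ((if c = c' then a * C else 0) +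
            W e a n (s + 1) (0 + step e s c - step e s c')) :=
            Finset.sum_le_sum fun _ _ => Finset.sum_le_sum fun _ _ => hterm _ _
        _ = (2 * h : ℝ) * (a * C) +
            ∑ c : Ch h, ∑ c' : Ch h, W e a n (s + 1) (0 + step e s c - step e s c') := by
            simp only [Finset.sum_add_distrib, Finset.sum_ite_eq, Finset.mem_univ, if_true,
              Finset.sum_const, Finset.card_univ, Fintype.card_prod, Fintype.card_bool,
              Fintype.card_fin, nsmul_eq_mul]
            push_cast
            ring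
        _ ≤ (2 * h : ℝ) * (a * C) + U := by linarith
        _ = (1 + K * (∑ l ∈ range n, Q e (l + 1) s 0 + Q e 0 s 0)) * (2 * h : ℝ) ^ 2 := by
            rw [hUeq, hKdef]
            simp only [Q, if_true]
            field_simp
            ring
    · have hterm : ∀ c c' : Ch h, (if D = 0 ∧ c = c' then a else 1) *
          W e a n (s + 1) (D + step e s c - step e s c') =
          W e a n (s + 1) (D + step e s c - step e s c') := by
        intro c c'
        simp [hD]
      simp_rw [hterm]
      refine hUle.trans (le_of_eq ?_)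
      rw [hUeq]
      simp only [Q, if_neg hD, add_zero]
      ring

theorem W_zero_le (hh : 1 ≤ h) {a C : ℝ} (ha : 1 ≤ a) (hC : 0 ≤ C)
    (hCa : 1 + (a * C / (2 * h)) * (9 / 4) ≤ C) (n s : ℕ) : W e a n s 0 ≤ C := by
  refine (W_le e hh ha hC hCa n s 0).trans (le_trans ?_ hCa)
  have hh' : (1 : ℝ) ≤ h := by exact_mod_cast hh
  have hK : 0 ≤ a * C / (2 * h) := by positivity
  have := sum_Q_le e hh n s
  nlinarith

end Pool.Agent.Helper156.BnG
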